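import Pool.Agent.H5.DPG.Stmts

/-!
Row PSB of the board `dpg`: the list of the submasks in polynomial time.
-/

set_option autoImplicit false

namespace Pool.DPG

open TMLib Pool.PG

/-- one step of `sbs` -/
def psb_st (cap : ℕ) (T : List (List Bool)) (b : Bool) : List (List Bool) :=
  (T.map (List.cons false) ++ if b = true then T.map (List.cons true) else []).take cap

theorem psb_eq (cap : ℕ) (X : List Bool) : X.reverse.foldl (psb_st cap) [[]] = sbs cap X := by
  rw [List.foldl_reverse]
  rfl

theorem psb_len (cap : ℕ) (l : List Bool) : ∀ T : List (List Bool), T.length ≤ cap + 1 →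
    (l.foldl (psb_st cap) T).length ≤ cap + 1 := by
  induction l with
  | nil => exact fun T hT => hT
  | cons b l ih =>
    intro T _
    refine ih _ ?_
    unfold psb_st
    rw [List.length_take]
    omega

theorem psb_mem (cap : ℕ) (l : List Bool) : ∀ (k : ℕ) (T : List (List Bool)),
    (∀ Z ∈ T, Z.length ≤ k) → ∀ Z ∈ l.foldl (psb_st cap) T, Z.length ≤ k + l.length := by
  induction l with
  | nil => exact fun k T hT Z hZ => hT Z hZ
  | cons b l ih =>
    intro k T hT Z hZ
    have h := ih (k + 1) (psb_st cap T b) (by
      intro Y hY
      have hY2 := List.mem_of_mem_take hY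
      rw [List.mem_append] at hY2
      rcases hY2 with h1 | h1
      · obtain ⟨Y', h2, rfl⟩ := List.mem_map.1 h1
        have := hT Y' h2
        rw [List.length_cons]
        omega
      · by_cases hb : b = true
        · rw [if_pos hb] at h1
          obtain ⟨Y', h2, rfl⟩ := List.mem_map.1 h1
          have := hT Y' h2
          rw [List.length_cons]
          omega
        · rw [if_neg hb] at h1
          exact absurd h1 List.not_mem_nil) Z hZ
    rw [List.length_cons]
    omega

theorem psb_thm : PSBStmt := by
  have hstep : PTime fun q : (ℕ × List Bool) × List (List Bool) × Bool =>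
      psb_st q.1.1 q.2.1 q.2.2 := by
    unfold psb_st
    have hT : PTime fun q : (ℕ × List Bool) × List (List Bool) × Bool => q.2.1 :=
      PTime.fst (PTime.snd PTime.id)
    refine PTime.take (PTime.fst (PTime.fst PTime.id)) (PTime.append ?_ (PTime.ite ?_ ?_ ?_))
    · exact PTime.map (g := fun _ Z => false :: Z) hT (PTime.cons (PTime.const false)
        (PTime.snd PTime.id))
    · exact PTime.decide_true' (PTime.snd (PTime.snd PTime.id))
    · exact PTime.map (g := fun _ Z => true :: Z) hT (PTime.cons (PTime.const true)
        (PTime.snd PTime.id))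
    · exact PTime.const []
  have h := PTime.foldl (α := ℕ × List Bool) (f := fun p T b => psb_st p.1 T b)
    (init := fun _ => [[]]) (l := fun p => p.2.reverse) hstep (PTime.const [[]])
    (PTime.reverse (PTime.snd PTime.id))
    (h := fun p => 1 + (sz p + 1) * (2 + sz p * 4))
    ((PB.const 1).add ((PB.sz_self.add (PB.const 1)).mul
      ((PB.const 2).add (PB.sz_self.mul (PB.const 4))))) (by
      intro p l' hl'
      have h1 : p.1 ≤ sz p := by
        rw [sz_pair, sz_nat]
        omega
      have h2 : p.2.length ≤ sz p := by
        have := length_lt_sz p.2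
        rw [sz_pair]
        omega
      have h3 : l'.length ≤ p.2.length := by
        have := hl'.length_le
        rwa [List.length_reverse] at this
      have h4 := psb_len p.1 l' [[]] (by simp)
      have h5 := psb_mem p.1 l' 0 [[]] (by simp)
      have h6 := sz_list_le (l'.foldl (psb_st p.1) [[]]) (sz p + 1) (1 + sz p * 4) (by omega) (by
        intro Z hZ
        have h7 := h5 Z hZ
        have h8 := sz_list_le Z (sz p) 3 (by omega) (fun b _ => sz_bool_le b)
        omega)
      have h9 : 1 + (1 + sz p * 4) = 2 + sz p * 4 := by omega
      rw [h9] at h6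
      exact h6)
  exact h.congr fun p => (psb_eq p.1 p.2).symm

end Pool.DPG
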